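import Pool.Agent.Q227.PC.Main

/-!
# MP_d47e79_lc, Q1: degree `O(log² n)` succeeds for the planted clique problem

For `k = Θ(n ^ a)`, `a > 0`, polynomials of degree at most `⌈C log² n⌉` strongly separate the
planted distribution from `G(n, 1/2)`, and their mean square error for the indicator of the event
that the first vertex is in the clique is `o(1/n)`.

Proof. Let `2 ^ ρ ≥ n ^ 4` with `ρ = O(log n)`. The crucial bound is that for sets `T, T'` with
at least `2 ρ + 1` elements the number of pairs in `T` or in `T'` that are not inside of `S` is
at least `ρ |(T ∪ T') \ S|`. Hence the moments of numbers of cliques of size at least `2 ρ + 1`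
are, up to negligible errors, those of the numbers of subsets of `S`. For the first part we use
the number of cliques of size `2 ρ + 1`. For the second part we use `2 g_r - g_{2r}`, `r = 2 ρ`,
where `g_t` is the normalised number of cliques of size `t + 1` which contain the first vertex;
the terms of order `r² / k` of the mean square error cancel.
-/

set_option autoImplicit false

namespace Pool.Agent.Results.MP_d47e79_lc.LogSquaredSucceeds

open Pool.Agent.Q227.PC Filter Asymptotics

theorem result : ∃ C : ℝ, 0 < C ∧ ∀ a : ℝ, 0 < a → ∀ k : ℕ → ℝ, (∀ n, 0 ≤ k n ∧ k n ≤ n) →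
    (k =Θ[atTop] fun n => (n : ℝ) ^ a) → Succeeds k fun n => ⌈C * Real.log n ^ 2⌉₊ :=
  ⟨2000, by norm_num, fun _ ha _ hk hka => main ha hk hka⟩

end Pool.Agent.Results.MP_d47e79_lc.LogSquaredSucceeds
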